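import Mathlib

set_option autoImplicit false

namespace Pool.Agent.H.MP_3c4fb9_al

open Finset

/-- active source sizes -/
def actS (a : ℕ → ℕ) (s0 a' s : ℕ) : ℕ := if s < s0 then 0 else if s = s0 then a' else a s

/-- lower bound of active target positions -/
def actT (b : ℕ → ℕ) (t0 l t : ℕ) : ℕ := if t < t0 then b t else if t = t0 then l else 0

theorem sweep_aux (a b : ℕ → ℕ) (m : ℕ) (al : ℕ → ℕ → ℤ → Prop)
    (htot : ∑ k ∈ range m, a k = ∑ k ∈ range m, b k)
    (H : ∀ s t a' l, s < m → t < m → a' ≤ a s → l ≤ b t → (a' = a s ∨ l = 0) →
      ∑ k ∈ range s, a k + (a s - a') = ∑ k ∈ range t, b k + l → 0 < a' → l < b t →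
      (a' ≤ b t - l → al s t l) ∧ (b t - l < a' → al s t ((b t : ℤ) - a')))
    (n : ℕ) : ∀ s0 t0 a' l, (m - s0) + (m - t0) = n → s0 ≤ m → t0 ≤ m → a' ≤ a s0 → l ≤ b t0 →
      (a' = a s0 ∨ l = 0) → (t0 = m → l = 0) →
      ∑ k ∈ range s0, a k + (a s0 - a') = ∑ k ∈ range t0, b k + l →
      ∃ x : ℕ → ℕ → ℤ → ℂ, (∀ s t c, x s t c ≠ 0 → al s t c ∧ s0 ≤ s ∧ t0 ≤ t) ∧
        ∀ v : ℕ → ℕ → ℂ, (∀ s j, actS a s0 a' s ≤ j → v s j = 0) →
          (∀ t < m, ∀ i, actT b t0 l t ≤ i → i < b t →
            ∑ s ∈ range m, ∑ j ∈ range (a s), x s t ((i : ℤ) - j) * v s j = 0) →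
          ∀ s < m, ∀ j, v s j = 0 := by
  induction n with
  | zero =>
    intro s0 t0 a' l hn hs ht ha hl hor hm hp
    refine ⟨fun _ _ _ => 0, fun s t c h => absurd rfl h, fun v hv _ s hs' j => hv s j ?_⟩
    have : s < s0 := by omega
    simp [actS, this]
  | succ n ih =>
    intro s0 t0 a' l hn hs ht ha hl hor hm hp
    by_cases hs0 : s0 = m
    · refine ⟨fun _ _ _ => 0, fun s t c h => absurd rfl h, fun v hv _ s hs' j => hv s j ?_⟩
      have : s < s0 := by omega
      simp [actS, this]
    have hs1 : s0 < m := by omega
    by_cases ht0 : t0 = m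
    · refine ⟨fun _ _ _ => 0, fun s t c h => absurd rfl h, fun v hv _ s hs' j => hv s j ?_⟩
      have h1 := hm ht0
      subst h1
      rw [ht0, ← htot] at hp
      have h2 : ∑ k ∈ range (s0 + 1), a k ≤ ∑ k ∈ range m, a k :=
        Finset.sum_le_sum_of_subset (Finset.range_mono (by omega))
      rw [Finset.sum_range_succ] at h2
      unfold actS
      split_ifs with h3 h4
      · omega
      · omega
      · have h5 : ∑ k ∈ range (s + 1), a k ≤ ∑ k ∈ range m, a k :=
          Finset.sum_le_sum_of_subset (Finset.range_mono (by omega))
        have h6 : ∑ k ∈ range (s0 + 1), a k ≤ ∑ k ∈ range s, a k :=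
          Finset.sum_le_sum_of_subset (Finset.range_mono (by omega))
        rw [Finset.sum_range_succ] at h5 h6
        omega
    have ht1 : t0 < m := by omega
    by_cases hc : a' ≤ b t0 - l
    · obtain ⟨x, hx, hx2⟩ := ih (s0 + 1) t0 (a (s0 + 1)) (l + a') (by omega) (by omega) ht le_rfl
        (by omega) (Or.inl rfl) (by omega) (by rw [Finset.sum_range_succ]; omega)
      refine ⟨fun s t c => if s = s0 ∧ t = t0 ∧ c = l ∧ 0 < a' then 1 else x s t c, ?_, ?_⟩
      · intro s t c h
        dsimp only at h
        split_ifs at h with h1
        · obtain ⟨rfl, rfl, rfl, h4⟩ := h1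
          exact ⟨(H _ _ a' l hs1 ht1 ha hl hor hp h4 (by omega)).1 hc, le_rfl, le_rfl⟩
        · have := hx s t c h
          exact ⟨this.1, by omega, this.2.2⟩
      · intro v hv he
        have hx0 : ∀ t c, x s0 t c = 0 := by
          intro t c
          by_contra h
          have := hx _ _ _ h
          omega
        have key : ∀ s < m, ∀ j, (if s = s0 then 0 else v s j) = 0 := by
          refine hx2 (fun s j => if s = s0 then 0 else v s j) ?_ ?_
          · intro s j hj
            split_ifs with h1
            · rfl
            · apply hv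
              unfold actS at hj ⊢
              split_ifs at hj ⊢ <;> first | omega | (subst_vars; omega)
          · intro t ht' i hi hi2
            refine Eq.trans ?_ (he t ht' i (by
              unfold actT at hi ⊢
              split_ifs at hi ⊢ <;> omega) hi2)
            refine Finset.sum_congr rfl fun s _ => Finset.sum_congr rfl fun j _ => ?_
            by_cases h1 : s = s0
            · subst h1
              simp only [if_true, true_and, mul_zero, hx0]
              split_ifs with h2
              · obtain ⟨rfl, h3, h4⟩ := h2
                simp only [actT, lt_irrefl, if_false, if_true] at hi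
                have h5 : a' ≤ j := by omega
                rw [hv s j (by simpa [actS] using h5), mul_zero]
              · simp
            · simp [h1]
        intro s hs' j
        by_cases h1 : s = s0
        · subst h1
          by_cases h2 : a' ≤ j
          · exact hv _ _ (by simpa [actS] using h2)
          · have h3 := he t0 ht1 (l + j) (by simp [actT]) (by omega)
            rw [Finset.sum_eq_single s, Finset.sum_eq_single j] at h3
            · have h4 : 0 < a' := by omega
              simpa [h4] using h3
            · intro j' _ hne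
              have : ¬ (((l + j : ℕ) : ℤ) - j' = l) := by omega
              simp only [this, hx0]
              simp
            · intro h
              exact absurd (Finset.mem_range.2 (by omega)) h
            · intro s' hs'' hne
              refine Finset.sum_eq_zero fun j' _ => ?_
              have := key s' (Finset.mem_range.1 hs'') j'
              rw [if_neg hne] at this
              rw [this, mul_zero]
            · intro h
              exact absurd (Finset.mem_range.2 hs') h
        · simpa [h1] using key s hs' j
    · obtain ⟨x, hx, hx2⟩ := ih s0 (t0 + 1) (a' - (b t0 - l)) 0 (by omega) hs (by omega) (by omega)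
        (by omega) (Or.inr rfl) (fun _ => rfl) (by rw [Finset.sum_range_succ]; omega)
      refine ⟨fun s t c => if s = s0 ∧ t = t0 ∧ c = (b t0 : ℤ) - a' ∧ l < b t0 then 1
        else x s t c, ?_, ?_⟩
      · intro s t c h
        dsimp only at h
        split_ifs at h with h1
        · obtain ⟨rfl, rfl, rfl, h4⟩ := h1
          exact ⟨(H _ _ a' l hs1 ht1 ha hl hor hp (by omega) h4).2 (by omega), le_rfl, le_rfl⟩
        · have := hx s t c h
          exact ⟨this.1, this.2.1, by omega⟩
      · intro v hv he
        have hx0 : ∀ s c, x s t0 c = 0 := by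
          intro s c
          by_contra h
          have := hx _ _ _ h
          omega
        refine hx2 v ?_ ?_
        · intro s j hj
          by_cases h1 : s = s0
          · subst h1
            simp only [actS, lt_irrefl, if_false, if_true] at hj
            by_cases h2 : a' ≤ j
            · exact hv _ _ (by simpa [actS] using h2)
            · have h3 := he t0 ht1 (b t0 + j - a') (by simp [actT]; omega) (by omega)
              have h4 : l < b t0 := by omega
              rw [Finset.sum_eq_single s, Finset.sum_eq_single j] at h3
              · have h5 : ((b t0 + j - a' : ℕ) : ℤ) - j = (b t0 : ℤ) - a' := by omega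
                simpa [h4, h5] using h3
              · intro j' _ hne
                have : ¬ (((b t0 + j - a' : ℕ) : ℤ) - j' = (b t0 : ℤ) - a') := by omega
                simp only [this, hx0]
                simp
              · intro h
                exact absurd (Finset.mem_range.2 (by omega)) h
              · intro s' _ hne
                refine Finset.sum_eq_zero fun j' _ => ?_
                simp [hne, hx0]
              · intro h
                exact absurd (Finset.mem_range.2 hs1) h
          · apply hv
            unfold actS at hj ⊢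
            split_ifs at hj ⊢ <;> omega
        · intro t ht' i hi hi2
          by_cases h1 : t = t0
          · subst h1
            simp only [actT, Nat.lt_succ_self, if_true] at hi
            omega
          · refine Eq.trans ?_ (he t ht' i (by
              unfold actT at hi ⊢
              split_ifs at hi ⊢ <;> omega) hi2)
            simp [h1]

theorem sweep (a b : ℕ → ℕ) (m : ℕ) (al : ℕ → ℕ → ℤ → Prop)
    (htot : ∑ k ∈ range m, a k = ∑ k ∈ range m, b k)
    (H : ∀ s t a' l, s < m → t < m → a' ≤ a s → l ≤ b t → (a' = a s ∨ l = 0) →
      ∑ k ∈ range s, a k + (a s - a') = ∑ k ∈ range t, b k + l → 0 < a' → l < b t →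
      (a' ≤ b t - l → al s t l) ∧ (b t - l < a' → al s t ((b t : ℤ) - a'))) :
    ∃ x : ℕ → ℕ → ℤ → ℂ, (∀ s t c, x s t c ≠ 0 → al s t c) ∧
      ∀ v : ℕ → ℕ → ℂ, (∀ s j, a s ≤ j → v s j = 0) →
        (∀ t < m, ∀ i < b t,
          ∑ s ∈ range m, ∑ j ∈ range (a s), x s t ((i : ℤ) - j) * v s j = 0) →
        ∀ s < m, ∀ j, v s j = 0 := by
  obtain ⟨x, h1, h2⟩ := sweep_aux a b m al htot H _ 0 0 (a 0) 0 rfl (Nat.zero_le _) (Nat.zero_le _)
    le_rfl (Nat.zero_le _) (Or.inl rfl) (fun _ => rfl) (by simp)
  refine ⟨x, fun s t c h => (h1 s t c h).1, fun v hv he => h2 v (fun s j hj => hv s j ?_)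
    fun t ht i _ hi => he t ht i hi⟩
  unfold actS at hj
  split_ifs at hj <;> first | omega | (subst_vars; omega)

end Pool.Agent.H.MP_3c4fb9_al
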