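import Pool.Agent.H.MP_3c4fb9_al.A

set_option autoImplicit false

namespace Pool.Agent.H.MP_3c4fb9_al

open Finset

/-- Kronecker blocks -/
inductive Blk : Type
  | LT (d : ℕ) : Blk
  | L (e : ℕ) : Blk
  | J (g : ℕ) (mu : ℂ) : Blk
  | N (g : ℕ) : Blk

/-- number of rows -/
def Blk.rows : Blk → ℕ
  | .LT d => d + 1
  | .L e => e
  | .J g _ => g
  | .N g => g

/-- number of columns -/
def Blk.cols : Blk → ℕ
  | .LT d => d
  | .L e => e + 1
  | .J g _ => g
  | .N g => g

/-- entries of the constant coefficient -/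
noncomputable def Blk.a : Blk → ℕ → ℕ → ℂ
  | .LT _, i, j => if i = j + 1 then 1 else 0
  | .L _, i, j => if j = i + 1 then 1 else 0
  | .J _ mu, i, j => if i = j then mu else if j = i + 1 then 1 else 0
  | .N _, i, j => if i = j then 1 else 0

/-- entries of the coefficient of lambda -/
noncomputable def Blk.b : Blk → ℕ → ℕ → ℂ
  | .LT _, i, j => if i = j then 1 else 0
  | .L _, i, j => if i = j then 1 else 0
  | .J _ _, i, j => if i = j then 1 else 0
  | .N _, i, j => if j = i + 1 then 1 else 0

/-- constant coefficient of the block diagonal pencil -/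
noncomputable def KA {m : ℕ} (blk : Fin m → Blk) :
    Matrix (Σ k, Fin (blk k).rows) (Σ k, Fin (blk k).cols) ℂ :=
  Matrix.blockDiagonal' fun k => Matrix.of fun i j => (blk k).a i j

/-- lambda coefficient of the block diagonal pencil -/
noncomputable def KB {m : ℕ} (blk : Fin m → Blk) :
    Matrix (Σ k, Fin (blk k).rows) (Σ k, Fin (blk k).cols) ℂ :=
  Matrix.blockDiagonal' fun k => Matrix.of fun i j => (blk k).b i j

/-- reflection of row positions -/
def rR : Blk → ℕ → ℕ
  | .L e, j => e - 1 - j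
  | _, j => j

/-- reflection of column positions -/
def rC : Blk → ℕ → ℕ
  | .L e, i => e - i
  | _, i => i

/-- allowed shifts -/
def Al : Blk → Blk → ℤ → Prop
  | .LT d, .LT d', c => 0 ≤ c ∧ c + d + 1 ≤ d'
  | .LT _, .L _, _ => True
  | .LT _, _, _ => False
  | .L e, .L e', c => c ≤ 0 ∧ (e' : ℤ) + 1 - e ≤ c
  | .L _, _, _ => False
  | s, t, c => s = t ∧ c = 0

theorem sum_ind (n r : ℕ) (p : ℕ → Prop) [DecidablePred p] (hp : ∀ i, p i ↔ i = r) (f : ℕ → ℂ) :
    ∑ i ∈ range n, (if p i then (1 : ℂ) else 0) * f i = if r < n then f r else 0 := by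
  simp only [hp, ite_mul, one_mul, zero_mul, Finset.sum_ite_eq', Finset.mem_range]

theorem sum_ind0 (n : ℕ) (p : ℕ → Prop) [DecidablePred p] (hp : ∀ i, ¬ p i) (f : ℕ → ℂ) :
    ∑ i ∈ range n, (if p i then (1 : ℂ) else 0) * f i = 0 := by
  simp only [hp, if_false, zero_mul, Finset.sum_const_zero]

theorem blk_comm (s t : Blk) (y : ℤ → ℂ) (hy : ∀ c, y c ≠ 0 → Al s t c) (r q : ℕ)
    (hr : r < t.rows) (hq : q < s.cols) :
    ∑ i ∈ range t.cols, t.a r i * ∑ j ∈ range s.rows, s.b j q * y ((rC t i : ℤ) - rR s j) =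
    ∑ i ∈ range t.cols, t.b r i * ∑ j ∈ range s.rows, s.a j q * y ((rC t i : ℤ) - rR s j) := by
  have hy' : ∀ c, ¬ Al s t c → y c = 0 := fun c h => by_contra fun h' => h (hy c h')
  have hreg : (∀ c, Al s t c → s = t ∧ c = 0) → (∀ i, rC s i = i) → (∀ i, rR s i = i) →
      s.rows = s.cols → ((∀ i j, s.a i j = if i = j then 1 else 0) ∨
        (∀ i j, s.b i j = if i = j then 1 else 0)) →
      ∑ i ∈ range t.cols, t.a r i * ∑ j ∈ range s.rows, s.b j q * y ((rC t i : ℤ) - rR s j) =
      ∑ i ∈ range t.cols, t.b r i * ∑ j ∈ range s.rows, s.a j q * y ((rC t i : ℤ) - rR s j) := by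
    intro h1 h2 h3 h4 h5
    by_cases hst : s = t
    · subst hst
      have e : ∀ (f : ℕ → ℂ), ∀ i ∈ range s.cols,
          ∑ j ∈ range s.rows, f j * y ((rC s i : ℤ) - rR s j) = f i * y 0 := by
        intro f i hi
        rw [Finset.sum_eq_single i]
        · simp [h2, h3]
        · intro j _ hne
          rw [hy' _ fun h => ?_, mul_zero]
          have := (h1 _ h).2
          rw [h2, h3] at this
          omega
        · intro h
          rw [h4] at h
          exact absurd hi h
      rw [Finset.sum_congr rfl fun i hi => congrArg (s.a r i * ·) (e (fun j => s.b j q) i hi),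
        Finset.sum_congr rfl fun i hi => congrArg (s.b r i * ·) (e (fun j => s.a j q) i hi)]
      rw [h4] at hr
      rcases h5 with h5 | h5
      · simp [h5, hr, hq]
      · simp [h5, hr, hq]
    · have : ∀ c, y c = 0 := fun c => hy' c fun h => hst (h1 c h).1
      simp [this]
  cases s with
  | LT d =>
    cases t with
    | LT d' =>
      simp only [Blk.rows, Blk.cols, Blk.a, Blk.b, rC, rR, Al] at *
      have e1 : ∀ i : ℕ, ∑ j ∈ range (d + 1), (if j = q then (1 : ℂ) else 0) * y ((i : ℤ) - j) =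
          y ((i : ℤ) - q) := fun i => by
        rw [sum_ind _ q _ (fun _ => Iff.rfl), if_pos (by omega)]
      have e2 : ∀ i : ℕ, ∑ j ∈ range (d + 1), (if j = q + 1 then (1 : ℂ) else 0) *
          y ((i : ℤ) - j) = y ((i : ℤ) - (q + 1 : ℕ)) := fun i => by
        rw [sum_ind _ (q + 1) _ (fun _ => Iff.rfl), if_pos (by omega)]
      simp only [e1, e2]
      rw [sum_ind d' r (fun i => r = i) (fun _ => eq_comm)]
      cases r with
      | zero =>
        rw [sum_ind0 _ _ (by omega), hy' _ (by omega)]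
        simp
      | succ r =>
        rw [sum_ind d' r _ (by omega), if_pos (by omega)]
        split_ifs with h
        · congr 1
          push_cast
          ring
        · exact hy' _ (by omega)
    | L e' =>
      simp only [Blk.rows, Blk.cols, Blk.a, Blk.b, rC, rR, Al] at *
      have e1 : ∀ z : ℤ, ∑ j ∈ range (d + 1), (if j = q then (1 : ℂ) else 0) * y (z - j) =
          y (z - q) := fun i => by
        rw [sum_ind _ q _ (fun _ => Iff.rfl), if_pos (by omega)]
      have e2 : ∀ z : ℤ, ∑ j ∈ range (d + 1), (if j = q + 1 then (1 : ℂ) else 0) *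
          y (z - j) = y (z - (q + 1 : ℕ)) := fun i => by
        rw [sum_ind _ (q + 1) _ (fun _ => Iff.rfl), if_pos (by omega)]
      simp only [e1, e2]
      rw [sum_ind _ r (fun i => r = i) (fun _ => eq_comm), sum_ind _ (r + 1) _ (fun _ => Iff.rfl),
        if_pos (by omega), if_pos (by omega)]
      congr 1
      omega
    | J g mu =>
      have : ∀ c, y c = 0 := fun c => hy' c (by simp [Al])
      simp [this]
    | N g =>
      have : ∀ c, y c = 0 := fun c => hy' c (by simp [Al])
      simp [this]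
  | L e =>
    cases t with
    | L e' =>
      simp only [Blk.rows, Blk.cols, Blk.a, Blk.b, rC, rR, Al] at *
      rw [sum_ind _ r (fun i => r = i) (fun _ => eq_comm), sum_ind _ (r + 1) _ (fun _ => Iff.rfl),
        if_pos (by omega), if_pos (by omega), sum_ind _ q _ (fun _ => Iff.rfl)]
      cases q with
      | zero =>
        rw [sum_ind0 _ _ (by omega), hy' _ (by omega)]
        simp
      | succ q =>
        rw [sum_ind e q _ (by omega), if_pos (show q < e by omega)]
        split_ifs with h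
        · congr 1
          omega
        · exact (hy' _ (by omega)).symm
    | LT d' =>
      have : ∀ c, y c = 0 := fun c => hy' c (by simp [Al])
      simp [this]
    | J g mu =>
      have : ∀ c, y c = 0 := fun c => hy' c (by simp [Al])
      simp [this]
    | N g =>
      have : ∀ c, y c = 0 := fun c => hy' c (by simp [Al])
      simp [this]
  | J g mu =>
    exact hreg (fun c h => by cases t <;> exact h) (fun _ => rfl) (fun _ => rfl) rfl
      (Or.inr fun _ _ => rfl)
  | N g =>
    exact hreg (fun c h => by cases t <;> exact h) (fun _ => rfl) (fun _ => rfl) rfl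
      (Or.inl fun _ _ => rfl)

/-- first sorting key -/
def k1 : Blk → ℕ
  | .LT _ => 1
  | .L _ => 2
  | _ => 0

/-- second sorting key -/
def k2 : Blk → ℤ
  | .LT d => d
  | .L e => -e
  | _ => 0

/-- indicator functions -/
def cLT (p : ℕ → Prop) [DecidablePred p] : Blk → ℕ
  | .LT d => if p d then 1 else 0
  | _ => 0

/-- indicator functions -/
def cL (p : ℕ → Prop) [DecidablePred p] : Blk → ℕ
  | .L d => if p d then 1 else 0
  | _ => 0

theorem sum_pre (f : ℕ → ℕ) (s m : ℕ) (h : s ≤ m) :
    ∑ k ∈ range s, f k = ∑ k ∈ range m, if k < s then f k else 0 := by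
  rw [← Finset.sum_filter]
  congr 1
  ext k
  simp only [mem_range, mem_filter]
  omega

section C

variable (m : ℕ) (bl : ℕ → Blk)
  (hmono : ∀ s k, s ≤ k → k < m →
    k1 (bl s) < k1 (bl k) ∨ (k1 (bl s) = k1 (bl k) ∧ k2 (bl s) ≤ k2 (bl k)))

include hmono

theorem reg_lem (u : ℕ) (hu : u < m) (h : k1 (bl u) = 0) :
    ∑ k ∈ range (u + 1), (bl k).rows = ∑ k ∈ range (u + 1), (bl k).cols := by
  refine Finset.sum_congr rfl fun k hk => ?_
  have := hmono k u (by simpa [Nat.lt_succ_iff] using hk) hu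
  rw [h] at this
  cases hb : bl k <;> simp_all [k1, Blk.rows, Blk.cols]

theorem P_lem (d s t : ℕ) (hs : s < m) (ht : t < m) (h : bl t = .LT d)
    (hP : d * ∑ k ∈ range m, cLT (· = d) (bl k) ≤ ∑ k ∈ range m, cLT (· < d) (bl k))
    (h2 : k1 (bl s) = 2 ∨ (k1 (bl s) = 1 ∧ d ≤ k2 (bl s))) :
    ∑ k ∈ range (t + 1), (bl k).cols ≤ ∑ k ∈ range s, (bl k).rows := by
  rw [sum_pre _ (t + 1) m (by omega), sum_pre _ s m (by omega)]
  have key : ∑ k ∈ range m, ((if k < t + 1 then (bl k).cols else 0) + cLT (· < d) (bl k)) ≤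
      ∑ k ∈ range m, ((if k < s then (bl k).rows else 0) + d * cLT (· = d) (bl k)) := by
    refine Finset.sum_le_sum fun k hk => ?_
    have hk' := Finset.mem_range.1 hk
    have a1 := fun h' => hmono k t h' ht
    have a2 := fun h' => hmono s k h' hk'
    rw [h] at a1
    generalize k1 (bl s) = z1 at *
    generalize k2 (bl s) = z2 at *
    cases hb : bl k <;> simp only [hb, k1, k2, Blk.rows, Blk.cols, cLT] at a1 a2 ⊢ <;>
      split_ifs <;> omega
  rw [Finset.sum_add_distrib, Finset.sum_add_distrib, ← Finset.mul_sum] at key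
  omega

theorem I_lem (e s t : ℕ) (hs : s < m) (ht : t < m) (h : bl s = .L e)
    (htot : ∑ k ∈ range m, (bl k).rows = ∑ k ∈ range m, (bl k).cols)
    (hI : e * ∑ k ∈ range m, cL (· = e) (bl k) ≤ ∑ k ∈ range m, cL (· < e) (bl k))
    (h2 : k1 (bl t) < 2 ∨ k2 (bl t) ≤ -e) :
    ∑ k ∈ range (t + 1), (bl k).cols ≤ ∑ k ∈ range s, (bl k).rows := by
  rw [sum_pre _ (t + 1) m (by omega), sum_pre _ s m (by omega)]
  have key : ∑ k ∈ range m, ((if k < t + 1 then (bl k).cols else 0) + cL (· < e) (bl k) +
      (bl k).rows) ≤ ∑ k ∈ range m, ((if k < s then (bl k).rows else 0) +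
        e * cL (· = e) (bl k) + (bl k).cols) := by
    refine Finset.sum_le_sum fun k hk => ?_
    have hk' := Finset.mem_range.1 hk
    have a1 := fun h' => hmono k t h' ht
    have a2 := fun h' => hmono s k h' hk'
    have a3 : k1 (bl t) ≤ 2 := by cases bl t <;> simp [k1]
    rw [h] at a2
    generalize k1 (bl t) = z1 at *
    generalize k2 (bl t) = z2 at *
    cases hb : bl k <;> simp only [hb, k1, k2, Blk.rows, Blk.cols, cL] at a1 a2 ⊢ <;>
      split_ifs <;> omega
  rw [Finset.sum_add_distrib, Finset.sum_add_distrib, Finset.sum_add_distrib,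
    Finset.sum_add_distrib, ← Finset.mul_sum] at key
  omega

theorem ex_x (htot : ∑ k ∈ range m, (bl k).rows = ∑ k ∈ range m, (bl k).cols)
    (hP : ∀ d, d * ∑ k ∈ range m, cLT (· = d) (bl k) ≤ ∑ k ∈ range m, cLT (· < d) (bl k))
    (hI : ∀ e, e * ∑ k ∈ range m, cL (· = e) (bl k) ≤ ∑ k ∈ range m, cL (· < e) (bl k)) :
    ∃ x : ℕ → ℕ → ℤ → ℂ, (∀ s t c, x s t c ≠ 0 → Al (bl s) (bl t) c) ∧
      ∀ v : ℕ → ℕ → ℂ, (∀ s j, (bl s).rows ≤ j → v s j = 0) →
        (∀ t < m, ∀ i < (bl t).cols,
          ∑ s ∈ range m, ∑ j ∈ range (bl s).rows, x s t ((i : ℤ) - j) * v s j = 0) →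
        ∀ s < m, ∀ j, v s j = 0 := by
  refine sweep (fun k => (bl k).rows) (fun k => (bl k).cols) m (fun s t c => Al (bl s) (bl t) c)
    htot ?_
  intro s t a' l hs ht ha hl hor hp h0 hl2
  have b1 := Finset.sum_range_succ (fun k => (bl k).rows) s
  have b2 := Finset.sum_range_succ (fun k => (bl k).cols) t
  have mA : ∀ u w, u ≤ w → ∑ k ∈ range u, (bl k).rows ≤ ∑ k ∈ range w, (bl k).rows :=
    fun u w h => Finset.sum_le_sum_of_subset (Finset.range_mono h)
  have mB : ∀ u w, u ≤ w → ∑ k ∈ range u, (bl k).cols ≤ ∑ k ∈ range w, (bl k).cols :=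
    fun u w h => Finset.sum_le_sum_of_subset (Finset.range_mono h)
  have r1 : k1 (bl s) = 0 → t ≤ s := by
    intro h
    by_contra hc
    have := reg_lem m bl hmono s hs h
    have := mB (s + 1) t (by omega)
    omega
  have r2 : k1 (bl t) = 0 → s ≤ t := by
    intro h
    by_contra hc
    have := reg_lem m bl hmono t ht h
    have := mA (t + 1) s (by omega)
    omega
  have r3 : k1 (bl s) = 0 ∨ k1 (bl t) = 0 → s = t := by
    rintro (h | h)
    · have := r1 h
      have := hmono t s this hs
      have := r2 (by omega)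
      omega
    · have := r2 h
      have := hmono s t this ht
      have := r1 (by omega)
      omega
  by_cases hreg : k1 (bl s) = 0 ∨ k1 (bl t) = 0
  · have e := r3 hreg
    subst e
    have h1 : k1 (bl s) = 0 := by omega
    have := reg_lem m bl hmono s hs h1
    have h3 : (bl s).rows = (bl s).cols := by
      cases hb : bl s <;> simp_all [k1, Blk.rows, Blk.cols]
    have h4 : l = 0 := by omega
    have h5 : Al (bl s) (bl s) 0 := by
      cases hb : bl s <;> simp_all [k1, Al]
    refine ⟨fun _ => by rw [h4]; exact h5, fun h => by omega⟩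
  · have p1 := fun d h h2 => P_lem m bl hmono d s t hs ht h (hP d) h2
    have p2 := fun e h h2 => I_lem m bl hmono e s t hs ht h htot (hI e) h2
    cases hbs : bl s <;> cases hbt : bl t <;>
      simp only [hbs, hbt, k1, k2, Blk.rows, Blk.cols, Al, true_and, true_or, or_true,
        not_true_eq_false, forall_const] at hreg ha hl hor hp hl2 b1 b2 p1 p2 ⊢
    all_goals first
      | exact ⟨fun _ => trivial, fun _ => trivial⟩
      | (have := p1 _ rfl; have := p2 _ rfl; omega)
      | (have := p1 _ rfl; omega)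
      | (have := p2 _ rfl; omega)

end C

end Pool.Agent.H.MP_3c4fb9_al
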