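import Pool.Agent.H.MP_3c4fb9_al.B

set_option autoImplicit false

namespace Pool.Agent.H.MP_3c4fb9_al

open Finset Matrix

theorem rR_lt (s : Blk) (j : ℕ) (h : j < s.rows) : rR s j < s.rows := by
  cases s <;> simp only [rR, Blk.rows] at * <;> omega

theorem rC_lt (s : Blk) (j : ℕ) (h : j < s.cols) : rC s j < s.cols := by
  cases s <;> simp only [rC, Blk.cols] at * <;> omega

theorem rR_rR (s : Blk) (j : ℕ) (h : j < s.rows) : rR s (rR s j) = j := by
  cases s <;> simp only [rR, Blk.rows] at * <;> omega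

theorem rC_rC (s : Blk) (j : ℕ) (h : j < s.cols) : rC s (rC s j) = j := by
  cases s <;> simp only [rC, Blk.cols] at * <;> omega

theorem sum_rR (s : Blk) (f : ℕ → ℂ) :
    ∑ j ∈ range s.rows, f (rR s j) = ∑ j ∈ range s.rows, f j := by
  cases s with
  | L e => exact Finset.sum_range_reflect f e
  | _ => rfl

theorem bd_mul {m : ℕ} {p q p' q' : Fin m → ℕ} (f g : Fin m → ℕ → ℕ → ℂ)
    (E : Fin m → Fin m → ℕ → ℕ → ℂ) (t s : Fin m) (r : Fin (p t)) (c : Fin (q' s)) :
    ((Matrix.blockDiagonal' fun k => Matrix.of fun (i : Fin (p k)) (j : Fin (q k)) => f k i j) *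
      (Matrix.of fun (i : Σ k, Fin (q k)) (j : Σ k, Fin (p' k)) => E i.1 j.1 i.2 j.2) *
      (Matrix.blockDiagonal' fun k => Matrix.of fun (i : Fin (p' k)) (j : Fin (q' k)) => g k i j))
      ⟨t, r⟩ ⟨s, c⟩ =
    ∑ i ∈ range (q t), f t r i * ∑ j ∈ range (p' s), g s j c * E t s i j := by
  rw [Matrix.mul_assoc, Matrix.mul_apply, Fintype.sum_sigma, Finset.sum_eq_single t,
    ← Fin.sum_univ_eq_sum_range (fun i => f t r i * ∑ j ∈ range (p' s), g s j c * E t s i j)]
  · refine Finset.sum_congr rfl fun i _ => ?_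
    rw [Matrix.blockDiagonal'_apply_eq, Matrix.mul_apply, Fintype.sum_sigma,
      Finset.sum_eq_single s, ← Fin.sum_univ_eq_sum_range (fun j => g s j c * E t s i j)]
    · simp only [Matrix.blockDiagonal'_apply_eq, Matrix.of_apply, mul_comm]
    · intro k _ hne
      simp [Matrix.blockDiagonal'_apply_ne _ _ _ hne]
    · simp
  · intro k _ hne
    simp [Matrix.blockDiagonal'_apply_ne _ _ _ hne.symm]
  · simp

theorem ex_E {m : ℕ} (blk : Fin m → Blk)
    (htot : ∑ k, (blk k).rows = ∑ k, (blk k).cols)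
    (hP : ∀ d, d * ∑ k, cLT (· = d) (blk k) ≤ ∑ k, cLT (· < d) (blk k))
    (hI : ∀ e, e * ∑ k, cL (· = e) (blk k) ≤ ∑ k, cL (· < e) (blk k)) :
    ∃ E : Matrix (Σ k, Fin (blk k).cols) (Σ k, Fin (blk k).rows) ℂ,
      KA blk * E * KB blk = KB blk * E * KA blk ∧ ∀ v, E *ᵥ v = 0 → v = 0 := by
  let key : Fin m → Lex (ℕ × ℤ) := fun k => toLex (k1 (blk k), k2 (blk k))
  let σ := Tuple.sort key
  have hσ : Monotone (key ∘ σ) := Tuple.monotone_sort key
  let bl : ℕ → Blk := fun n => if h : n < m then blk (σ ⟨n, h⟩) else .N 0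
  let τ : Fin m → ℕ := fun k => σ.symm k
  have hbl : ∀ k, bl (τ k) = blk k := fun k => by simp [bl, τ]
  have hsum : ∀ {M : Type} [AddCommMonoid M] (G : ℕ → M), ∑ n ∈ range m, G n = ∑ k, G (τ k) := by
    intro M _ G
    rw [← Fin.sum_univ_eq_sum_range, ← Equiv.sum_comp σ.symm]
  have hmono : ∀ s k, s ≤ k → k < m →
      k1 (bl s) < k1 (bl k) ∨ (k1 (bl s) = k1 (bl k) ∧ k2 (bl s) ≤ k2 (bl k)) := by
    intro s k hsk hk
    have hs : s < m := by omega
    have := hσ (show (⟨s, hs⟩ : Fin m) ≤ ⟨k, hk⟩ from hsk)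
    simp only [Function.comp, key, Prod.Lex.toLex_le_toLex] at this
    simpa only [bl, dif_pos hs, dif_pos hk] using this
  obtain ⟨x, hx, hinj⟩ := ex_x m bl hmono (by simpa only [hsum, hbl] using htot)
    (fun d => by simpa only [hsum, hbl] using hP d) (fun d => by simpa only [hsum, hbl] using hI d)
  refine ⟨Matrix.of fun i j => x (τ j.1) (τ i.1) ((rC (blk i.1) i.2 : ℤ) - rR (blk j.1) j.2),
    ?_, ?_⟩
  · ext ⟨t, r⟩ ⟨s, c⟩
    unfold KA KB
    rw [bd_mul (fun k => (blk k).a) (fun k => (blk k).b)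
        (fun t s i j => x (τ s) (τ t) ((rC (blk t) i : ℤ) - rR (blk s) j)),
      bd_mul (fun k => (blk k).b) (fun k => (blk k).a)
        (fun t s i j => x (τ s) (τ t) ((rC (blk t) i : ℤ) - rR (blk s) j))]
    refine blk_comm (blk s) (blk t) (x (τ s) (τ t)) (fun c h => ?_) r c r.2 c.2
    have := hx _ _ _ h
    rwa [hbl, hbl] at this
  · intro v hv
    let w : Fin m → ℕ → ℂ := fun k j => if h : j < (blk k).rows then v ⟨k, ⟨j, h⟩⟩ else 0
    let v' : ℕ → ℕ → ℂ := fun n j =>
      if h : n < m then (if j < (bl n).rows then w (σ ⟨n, h⟩) (rR (bl n) j) else 0) else 0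
    have hv' : ∀ k j, j < (blk k).rows → v' (τ k) j = w k (rR (blk k) j) := by
      intro k j hj
      simp only [v', hbl, if_pos hj]
      simp [τ]
    have h0 := hinj v' (fun s j hj => by
      simp only [v', if_neg (not_lt.2 hj)]
      simp) (fun t ht i hi => by
      obtain ⟨k, rfl⟩ : ∃ k, t = τ k := ⟨σ ⟨t, ht⟩, by simp [τ]⟩
      rw [hbl] at hi
      have := congrFun hv ⟨k, ⟨rC (blk k) i, rC_lt _ _ hi⟩⟩
      simp only [Matrix.mulVec, dotProduct, Matrix.of_apply, Pi.zero_apply, Fintype.sum_sigma,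
        rC_rC _ _ hi] at this
      rw [hsum, ← this]
      refine Finset.sum_congr rfl fun s _ => ?_
      rw [hbl, ← sum_rR, ← Fin.sum_univ_eq_sum_range
        (fun j => x (τ s) (τ k) ((i : ℤ) - rR (blk s) j) * v' (τ s) (rR (blk s) j))]
      refine Finset.sum_congr rfl fun j _ => ?_
      rw [hv' _ _ (rR_lt _ _ j.2), rR_rR _ _ j.2]
      simp [w])
    funext ⟨k, j⟩
    have := h0 (τ k) (σ.symm k).2 (rR (blk k) j)
    rw [hv' _ _ (rR_lt _ _ j.2), rR_rR _ _ j.2] at this
    simpa [w] using this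

theorem ncard_LT {m : ℕ} (blk : Fin m → Blk) (p : ℕ → Prop) [DecidablePred p] :
    {k | ∃ d, p d ∧ blk k = .LT d}.ncard = ∑ k, cLT p (blk k) := by
  classical
  rw [Set.ncard_eq_toFinset_card', Finset.card_eq_sum_ones, Set.toFinset_setOf, Finset.sum_filter]
  refine Finset.sum_congr rfl fun k _ => ?_
  cases blk k <;> simp [cLT]

theorem ncard_L {m : ℕ} (blk : Fin m → Blk) (p : ℕ → Prop) [DecidablePred p] :
    {k | ∃ d, p d ∧ blk k = .L d}.ncard = ∑ k, cL p (blk k) := by
  classical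
  rw [Set.ncard_eq_toFinset_card', Finset.card_eq_sum_ones, Set.toFinset_setOf, Finset.sum_filter]
  refine Finset.sum_congr rfl fun k _ => ?_
  cases blk k <;> simp [cL]

theorem main (n m : ℕ) (blk : Fin m → Blk) (A B S T : Matrix (Fin n) (Fin n) ℂ)
    (er : (Σ k, Fin (blk k).rows) ≃ Fin n) (ec : (Σ k, Fin (blk k).cols) ≃ Fin n)
    (hS : IsUnit S) (hT : IsUnit T)
    (hA : S * A * T = Matrix.reindex er ec (KA blk))
    (hB : S * B * T = Matrix.reindex er ec (KB blk))
    (hP : ∀ d, d * {k | blk k = .LT d}.ncard ≤ {k | ∃ d' < d, blk k = .LT d'}.ncard)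
    (hI : ∀ e, e * {k | blk k = .L e}.ncard ≤ {k | ∃ e' < e, blk k = .L e'}.ncard) :
    ∃ E : Matrix (Fin n) (Fin n) ℂ, IsUnit E ∧ E * A * (E * B) = E * B * (E * A) := by
  have htot : ∑ k, (blk k).rows = ∑ k, (blk k).cols := by
    have h1 := Fintype.card_congr er
    have h2 := Fintype.card_congr ec
    simp only [Fintype.card_sigma, Fintype.card_fin] at h1 h2
    rw [h1, h2]
  obtain ⟨E, h1, h2⟩ := ex_E blk htot
    (fun d => by
      rw [← ncard_LT, ← ncard_LT]
      simpa using hP d)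
    (fun d => by
      rw [← ncard_L, ← ncard_L]
      simpa using hI d)
  have hE : IsUnit (Matrix.reindex ec er E) := by
    rw [← Matrix.mulVec_injective_iff_isUnit]
    intro v v' h
    have h3 : Matrix.reindex ec er E *ᵥ (v - v') = 0 := by
      rw [Matrix.mulVec_sub]
      exact sub_eq_zero.2 h
    rw [Matrix.reindex_apply, Matrix.submatrix_mulVec_equiv] at h3
    have h4 : E *ᵥ ((v - v') ∘ er) = 0 := by
      funext i
      simpa using congrFun h3 (ec i)
    have h5 := h2 _ h4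
    funext i
    have := congrFun h5 (er.symm i)
    simpa [sub_eq_zero] using this
  have h6 : (S * A * T) * Matrix.reindex ec er E * (S * B * T) =
      (S * B * T) * Matrix.reindex ec er E * (S * A * T) := by
    rw [hA, hB]
    simp only [Matrix.reindex_apply, Matrix.submatrix_mul_equiv, h1]
  generalize Matrix.reindex ec er E = F at *
  refine ⟨T * F * S, (hT.mul hE).mul hS, ?_⟩
  apply hT.mul_right_cancel
  have := congrArg (fun X => T * F * X) h6
  simpa only [mul_assoc] using this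

end Pool.Agent.H.MP_3c4fb9_al
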